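import Pool.Agent.H832R3.TW.Defs
import Pool.Agent.H891R2.MT.T1b

set_option autoImplicit false

/-! The state sum of a diagram with twist regions (after T1b by helper332). -/

namespace Pool.Agent.H832R3.TW

open Finset LaurentPolynomial Pool.Agent.H891R2.Jones Pool.Agent.H891R2.MT
open Pool.Agent.H891R2.MT.T1a Pool.Agent.H891R2.MT.T1b

variable {k : ℕ}

theorem crossings_prod (arcs : List (Corner k × Corner k)) (n : Fin k → ℤ) (A : ℂ) {N : ℕ}
    (col : Ribbon.Pt n → Fin N) :
    ((twisted arcs n).std.crossings.map (crossW A col)).prod =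
      ∏ e : Fin k, ∏ j : Fin (n e).natAbs, stepW A (decide (0 < n e))
        (fun s => col ⟨e, (j.castSucc, s)⟩) (fun s => col ⟨e, (j.succ, s)⟩) := by
  unfold UDiagram.std twisted
  simp only [List.map_map, List.map_flatMap]
  rw [prod_flatMap, Fin.prod_univ_def]
  congr 1
  apply List.map_congr_left
  intro e _
  rw [Fin.prod_univ_def]
  congr 1
  apply List.map_congr_left
  intro j _
  exact crossW_eq n A col e j

/-- the colours of the corners -/
def dd {N : ℕ} (y : Fin k → (Bool → Fin N) × (Bool → Fin N)) : Corner k → Fin N :=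
  fun x => if x.2.1 then (y x.1).2 x.2.2 else (y x.1).1 x.2.2

def ddEquiv (k N : ℕ) : (Fin k → (Bool → Fin N) × (Bool → Fin N)) ≃ (Corner k → Fin N) where
  toFun := dd
  invFun c := fun e => (fun s => c (e, false, s), fun s => c (e, true, s))
  left_inv y := by
    funext e
    simp [dd]
  right_inv c := by
    funext x
    obtain ⟨e, b, s⟩ := x
    cases b <;> simp [dd]

theorem arcs_ind (arcs : List (Corner k × Corner k)) (n : Fin k → ℤ) {N : ℕ}
    (col : Ribbon.Pt n → Fin N) :
    ((twisted arcs n).std.arcs.map (arcW col)).prod =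
      ind (∀ x ∈ arcs, dd (eds n (lvEquiv n N col)) x.1 = dd (eds n (lvEquiv n N col)) x.2) := by
  have hl : ∀ x : Corner k, col (corner n x) = dd (eds n (lvEquiv n N col)) x := by
    rintro ⟨e, b, s⟩
    cases b <;> rfl
  rw [arcs_prod]
  apply ind_congr
  simp only [← hl]
  unfold UDiagram.std twisted
  simp only [List.mem_map, forall_exists_index, and_imp, forall_apply_eq_imp_iff₂, Prod.map_fst,
    Prod.map_snd]

theorem sm_iff (arcs : List (Corner k × Corner k)) {N : ℕ} (S : Finset (Fin k))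
    (y : Fin k → (Bool → Fin N) × (Bool → Fin N)) :
    ((∀ x ∈ arcs, dd y x.1 = dd y x.2) ∧
      (∀ e ∈ S, (y e).1 = (y e).2) ∧
      (∀ e ∈ Finset.univ \ S, (y e).1 true = (y e).1 false ∧ (y e).2 true = (y e).2 false)) ↔
    ∀ p q, Sm arcs S p q → dd y p = dd y q := by
  constructor
  · rintro ⟨h1, h2, h3⟩ ⟨e, b, s⟩ q (hp | ⟨hp, rfl⟩ | ⟨hp, rfl⟩)
    · exact h1 _ hp
    · have h4 := h2 e hp
      cases b
      · simp [dd, h4]
      · simp [dd, h4]
    · have h4 := h3 e (Finset.mem_sdiff.2 ⟨Finset.mem_univ _, hp⟩)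
      cases b <;> cases s <;> simp [dd, h4.1, h4.2]
  · intro h
    refine ⟨fun x hx => h _ _ (Or.inl hx), fun e he => ?_, fun e he => ?_⟩
    · funext s
      have := h (e, false, s) (e, !false, s) (Or.inr (Or.inl ⟨he, rfl⟩))
      simpa [dd] using this
    · have he' := (Finset.mem_sdiff.1 he).2
      have h1 := h (e, false, true) (e, false, !true) (Or.inr (Or.inr ⟨he', rfl⟩))
      have h2 := h (e, true, true) (e, true, !true) (Or.inr (Or.inr ⟨he', rfl⟩))
      simp only [dd, Bool.not_true, if_true] at h1 h2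
      exact ⟨by simpa using h1, h2⟩

theorem transfer (arcs : List (Corner k × Corner k)) (n : Fin k → ℤ) {A : ℂ} (hA : A ≠ 0) {N : ℕ}
    (hN : N ≠ 0) (hNA : (N : ℂ) = -A^2 - A⁻¹^2) :
    ∑ col : Ribbon.Pt n → Fin N, WW A (twisted arcs n).std.arcs (twisted arcs n).std.crossings col =
      ∑ S : Finset (Fin k), (∏ e ∈ S, A ^ n e) * (∏ e ∈ Sᶜ, gg A N (n e)) *
        (N : ℂ) ^ loops arcs S := by
  classical
  set G : (Fin k → (Bool → Fin N) × (Bool → Fin N)) → Prop := fun y =>
    ∀ x ∈ arcs, dd y x.1 = dd y x.2 with hG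
  set w : ∀ e : Fin k, (Fin ((n e).natAbs + 1) → Bool → Fin N) → ℂ := fun e x =>
    ∏ j : Fin (n e).natAbs, stepW A (decide (0 < n e)) (x j.castSucc) (x j.succ) with hw
  have h1 : ∑ col : Ribbon.Pt n → Fin N, WW A (twisted arcs n).std.arcs
      (twisted arcs n).std.crossings col =
      ∑ z : (∀ e : Fin k, Fin ((n e).natAbs + 1) → Bool → Fin N),
        ind (G (eds n z)) * ∏ e, w e (z e) := by
    rw [← Equiv.sum_comp (lvEquiv n N)]
    refine Finset.sum_congr rfl fun col _ => ?_
    unfold WW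
    rw [arcs_ind, crossings_prod]
    rfl
  have h2 : ∀ z : (∀ e : Fin k, Fin ((n e).natAbs + 1) → Bool → Fin N),
      ind (G (eds n z)) * ∏ e, w e (z e) =
      ∑ y : Fin k → (Bool → Fin N) × (Bool → Fin N), ind (G y) *
        ∏ e, (ind (z e 0 = (y e).1 ∧ z e (Fin.last _) = (y e).2) * w e (z e)) := by
    intro z
    rw [Finset.sum_eq_single (eds n z)]
    · congr 1
      refine Finset.prod_congr rfl fun e _ => ?_
      rw [ind_pos ⟨rfl, rfl⟩, one_mul]
    · intro y _ hy
      have : ∃ e, ¬ (z e 0 = (y e).1 ∧ z e (Fin.last _) = (y e).2) := by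
        by_contra hcon
        push Not at hcon
        apply hy
        funext e
        exact (Prod.ext (hcon e).1 (hcon e).2).symm
      obtain ⟨e, he⟩ := this
      rw [Finset.prod_eq_zero (Finset.mem_univ e) (by rw [ind_neg he, zero_mul]), mul_zero]
    · intro h
      exact absurd (Finset.mem_univ _) h
  have h3 : ∀ y : Fin k → (Bool → Fin N) × (Bool → Fin N),
      ∑ z : (∀ e : Fin k, Fin ((n e).natAbs + 1) → Bool → Fin N),
        ∏ e, (ind (z e 0 = (y e).1 ∧ z e (Fin.last _) = (y e).2) * w e (z e)) =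
      ∏ e, (A ^ n e * ind ((y e).1 = (y e).2) +
        gg A N (n e) * ind ((y e).1 true = (y e).1 false ∧ (y e).2 true = (y e).2 false)) := by
    intro y
    rw [← Fintype.piFinset_univ, ← Finset.prod_univ_sum (fun e => Finset.univ)
      (fun e x => ind (x 0 = (y e).1 ∧ x (Fin.last _) = (y e).2) * w e x)]
    exact Finset.prod_congr rfl fun e _ => band_sum hA hN hNA (n e) (y e).1 (y e).2
  rw [h1, Finset.sum_congr rfl fun z _ => h2 z, Finset.sum_comm]
  have h6 : ∀ y : Fin k → (Bool → Fin N) × (Bool → Fin N),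
      ∑ z : (∀ e : Fin k, Fin ((n e).natAbs + 1) → Bool → Fin N), ind (G y) *
        ∏ e, (ind (z e 0 = (y e).1 ∧ z e (Fin.last _) = (y e).2) * w e (z e)) =
      ∑ S : Finset (Fin k), ind (G y) * ((∏ e ∈ S, A ^ n e * ind ((y e).1 = (y e).2)) *
        ∏ e ∈ Finset.univ \ S, gg A N (n e) *
          ind ((y e).1 true = (y e).1 false ∧ (y e).2 true = (y e).2 false)) := by
    intro y
    rw [← Finset.mul_sum, h3 y, Finset.prod_add, Finset.mul_sum, Finset.powerset_univ]
  rw [Finset.sum_congr rfl fun y _ => h6 y, Finset.sum_comm]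
  refine Finset.sum_congr rfl fun S _ => ?_
  have h4 : ∀ y : Fin k → (Bool → Fin N) × (Bool → Fin N),
      ind (G y) * ((∏ e ∈ S, A ^ n e * ind ((y e).1 = (y e).2)) *
        ∏ e ∈ Finset.univ \ S, gg A N (n e) *
          ind ((y e).1 true = (y e).1 false ∧ (y e).2 true = (y e).2 false)) =
      (∏ e ∈ S, A ^ n e) * (∏ e ∈ Sᶜ, gg A N (n e)) *
        ind (∀ p q, Sm arcs S p q → dd y p = dd y q) := by
    intro y
    rw [Finset.prod_mul_distrib, Finset.prod_mul_distrib, prod_ind, prod_ind,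
      ← ind_congr (sm_iff arcs S y), ← ind_mul, ← ind_mul, Finset.compl_eq_univ_sdiff]
    ring
  rw [Finset.sum_congr rfl fun y _ => h4 y, ← Finset.mul_sum]
  congr 1
  have h5 : ∑ y : Fin k → (Bool → Fin N) × (Bool → Fin N),
      ind (∀ p q, Sm arcs S p q → dd y p = dd y q) =
      ∑ c : Corner k → Fin N, ind (∀ p q, Sm arcs S p q → c p = c q) :=
    Equiv.sum_comp (ddEquiv k N)
      (fun c : Corner k → Fin N => ind (∀ p q, Sm arcs S p q → c p = c q))
  rw [h5, sum_ind, card_colourings]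
  unfold loops
  push_cast
  rfl

end Pool.Agent.H832R3.TW
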