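import Pool.Agent.H832R3.TW.A
import Pool.Agent.H891R2.MT.T8

set_option autoImplicit false

/-! The identity of Laurent polynomials. -/

namespace Pool.Agent.H832R3.TW

open Finset LaurentPolynomial Pool.Agent.H891R2.Jones Pool.Agent.H891R2.MT

variable {k : ℕ}

theorem expand (arcs : List (Corner k × Corner k)) {N : ℕ} (hN : N ≠ 0) (x y : Fin k → ℂ) :
    (N : ℂ) ^ k * ∑ S : Finset (Fin k), (∏ e ∈ S, x e) * (∏ e ∈ Sᶜ, (y e - x e) / N) *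
      (N : ℂ) ^ loops arcs S =
    ∑ S : Finset (Fin k), (∏ e ∈ S, x e) * (∏ e ∈ Sᶜ, y e) *
      Polynomial.aeval (N : ℂ) (cp arcs S) := by
  have hN' : (N : ℂ) ≠ 0 := by exact_mod_cast hN
  have h3 : ∀ S : Finset (Fin k), (N : ℂ) ^ k * ((∏ e ∈ S, x e) *
      (∏ e ∈ Sᶜ, (y e - x e) / N) * (N : ℂ) ^ loops arcs S) =
      (N : ℂ) ^ (S.card + loops arcs S) * ((∏ e ∈ S, x e) * ∏ e ∈ Sᶜ, (y e - x e)) := by
    intro S
    have e1 : ∏ e ∈ Sᶜ, (y e - x e) / (N : ℂ) = (∏ e ∈ Sᶜ, (y e - x e)) / (N : ℂ) ^ (Sᶜ).card := by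
      rw [Finset.prod_div_distrib, Finset.prod_const]
    have e2 : S.card + (Sᶜ).card = k := by
      rw [Finset.card_add_card_compl, Fintype.card_fin]
    have e4 : (N : ℂ) ^ k = (N : ℂ) ^ S.card * (N : ℂ) ^ (Sᶜ).card := by
      rw [← pow_add, e2]
    rw [e1, e4, pow_add]
    field_simp
  rw [Finset.mul_sum, Finset.sum_congr rfl (fun S _ => h3 S),
    T3e.expand_aux (fun S => (N : ℂ) ^ (S.card + loops arcs S)) x y]
  refine Finset.sum_congr rfl fun R _ => ?_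
  congr 1
  unfold cp
  rw [map_sum]
  refine Finset.sum_congr rfl fun S _ => ?_
  rw [map_mul, map_pow, map_pow, map_neg, map_one, Polynomial.aeval_X]

theorem ev_delta (N : ℕ) (hN : 3 ≤ N) : ev N hN (-T 2 - T (-2)) = (N : ℂ) := by
  rw [map_sub, map_neg, ev_T, ev_T, Ar_d N hN, inv_pow]
  rfl

theorem ev_aeval (N : ℕ) (hN : 3 ≤ N) (p : Polynomial ℤ) :
    ev N hN (Polynomial.aeval (-T 2 - T (-2) : ℤ[T;T⁻¹]) p) = Polynomial.aeval (N : ℂ) p := by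
  rw [← ev_delta N hN]
  have := Polynomial.hom_eval₂ p (algebraMap ℤ ℤ[T;T⁻¹]) (ev N hN) (-T 2 - T (-2))
  rw [Polynomial.aeval_def, Polynomial.aeval_def, this]
  congr 1
  exact Subsingleton.elim _ _

theorem ev_term (N : ℕ) (hN : 3 ≤ N) (a : ℤ) (p : Polynomial ℤ) :
    ev N hN (((-1 : ℤ[T;T⁻¹]) ^ a.natAbs * T (4 * a)) *
      Polynomial.aeval (-T 2 - T (-2) : ℤ[T;T⁻¹]) p) =
    (-(Ar N) ^ 4) ^ a * Polynomial.aeval (N : ℂ) p := by
  rw [map_mul, map_mul, map_pow, map_neg, map_one, ev_T, ev_aeval]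
  congr 1
  rw [neg_zpow_natAbs, zpow_mul]
  rfl

/-- the identity of Laurent polynomials -/
theorem identity (arcs : List (Corner k × Corner k)) (hk : 0 < k) (n : Fin k → ℤ) :
    ∑ S : Finset (Fin k), ((-1 : ℤ[T;T⁻¹]) ^ (nS n S).natAbs * T (4 * nS n S)) *
        Polynomial.aeval (-T 2 - T (-2) : ℤ[T;T⁻¹]) (cp arcs S) =
      ((-1) ^ (nS n univ).natAbs * T (3 * nS n univ)) * (-T 2 - T (-2)) ^ (1 + k) *
        (twisted arcs n).std.bracket := by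
  have hne : Nonempty (Ribbon.Pt n) := ⟨⟨⟨0, hk⟩, 0, true⟩⟩
  apply T6.eq_of_ev
  intro N hN
  have hN0 : N ≠ 0 := by omega
  have hN1 : (N : ℂ) ≠ 0 := by exact_mod_cast hN0
  have hA := Ar_ne N hN
  have hd := ev_delta N hN
  have e1 := transfer arcs n hA hN0 (Ar_d N hN)
  rw [← ev_bracket N hN] at e1
  have e2 := expand arcs hN0 (fun e => (Ar N) ^ n e) (fun e => (-(Ar N)⁻¹ ^ 3) ^ n e)
  have e3 : (N : ℂ) ^ k * ((N : ℂ) * ev N hN (twisted arcs n).std.bracket) =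
      ∑ S : Finset (Fin k), (∏ e ∈ S, (Ar N) ^ n e) * (∏ e ∈ Sᶜ, (-(Ar N)⁻¹ ^ 3) ^ n e) *
      Polynomial.aeval (N : ℂ) (cp arcs S) := by
    rw [e1, ← e2]
    rfl
  rw [map_sum]
  simp only [ev_term]
  have e4 : ev N hN (((-1) ^ (nS n univ).natAbs * T (3 * nS n univ)) * (-T 2 - T (-2)) ^ (1 + k) *
        (twisted arcs n).std.bracket) = (-(Ar N) ^ 3) ^ (nS n univ) *
        ((N : ℂ) ^ k * ((N : ℂ) * ev N hN (twisted arcs n).std.bracket)) := by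
    rw [map_mul, map_mul, map_mul, map_pow, map_pow, map_neg, map_one, ev_T, hd, neg_zpow_natAbs,
      zpow_mul]
    have : ((Ar N) ^ (3 : ℤ)) = (Ar N) ^ 3 := rfl
    rw [this]
    ring
  rw [e4, e3, Finset.mul_sum]
  refine Finset.sum_congr rfl fun S _ => ?_
  rw [← mul_assoc]
  congr 1
  have hA3 : (-(Ar N) ^ 3) ≠ 0 := neg_ne_zero.2 (pow_ne_zero _ hA)
  have h5 : (-(Ar N) ^ 3) ^ (nS n univ) =
      (∏ e ∈ S, (-(Ar N) ^ 3) ^ n e) * (∏ e ∈ Sᶜ, (-(Ar N) ^ 3) ^ n e) := by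
    rw [Finset.prod_mul_prod_compl]
    exact zpow_sum _ hA3 _
  have h6 : (-(Ar N) ^ 4) ^ (nS n S) = ∏ e ∈ S, (-(Ar N) ^ 4) ^ n e :=
    zpow_sum _ (neg_ne_zero.2 (pow_ne_zero _ hA)) _
  have h7 : (∏ e ∈ Sᶜ, (-(Ar N) ^ 3) ^ n e) * (∏ e ∈ Sᶜ, (-(Ar N)⁻¹ ^ 3) ^ n e) = 1 := by
    rw [← Finset.prod_mul_distrib]
    refine Finset.prod_eq_one fun e _ => ?_
    rw [← mul_zpow]
    have : -(Ar N) ^ 3 * -(Ar N)⁻¹ ^ 3 = 1 := by
      field_simp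
    rw [this, one_zpow]
  have h8 : (∏ e ∈ S, (-(Ar N) ^ 3) ^ n e) * (∏ e ∈ S, (Ar N) ^ n e) =
      ∏ e ∈ S, (-(Ar N) ^ 4) ^ n e := by
    rw [← Finset.prod_mul_distrib]
    refine Finset.prod_congr rfl fun e _ => ?_
    rw [← mul_zpow]
    congr 1
    ring
  rw [h5, h6, ← h8]
  calc (∏ e ∈ S, (-(Ar N) ^ 3) ^ n e) * (∏ e ∈ S, (Ar N) ^ n e) =
      (∏ e ∈ S, (-(Ar N) ^ 3) ^ n e) * (∏ e ∈ S, (Ar N) ^ n e) *
      ((∏ e ∈ Sᶜ, (-(Ar N) ^ 3) ^ n e) * (∏ e ∈ Sᶜ, (-(Ar N)⁻¹ ^ 3) ^ n e)) := by rw [h7, mul_one]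
    _ = _ := by ring

theorem aeval_inj (p : Polynomial ℤ)
    (h : Polynomial.aeval (-T 2 - T (-2) : ℤ[T;T⁻¹]) p = 0) : p = 0 := by
  have h1 : ∀ N : ℕ, 3 ≤ N → (p.map (Int.castRingHom ℂ)).eval (N : ℂ) = 0 := by
    intro N hN
    have h2 := congrArg (ev N hN) h
    rw [ev_aeval, map_zero] at h2
    rw [Polynomial.eval_map, ← h2, Polynomial.aeval_def]
    rfl
  have h3 : p.map (Int.castRingHom ℂ) = 0 := by
    apply Polynomial.eq_zero_of_infinite_isRoot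
    have hinf : Set.Infinite ((fun N : ℕ => (N : ℂ)) '' {N | 3 ≤ N}) := by
      apply Set.Infinite.image
      · intro a _ b _ hab
        exact Nat.cast_injective (R := ℂ) hab
      · exact Set.Ici_infinite 3
    refine hinf.mono ?_
    rintro _ ⟨N, hN, rfl⟩
    exact h1 N hN
  exact (Polynomial.map_injective _ (RingHom.injective_int (Int.castRingHom ℂ)))
    (by rw [h3, Polynomial.map_zero])

end Pool.Agent.H832R3.TW
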