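import Pool.Agent.H832R3.TW.B

set_option autoImplicit false

/-! Templates which are not nugatory, and the argument with two clusters. -/

namespace Pool.Agent.H832R3.TW

open Finset LaurentPolynomial Pool.Agent.H891R2.Jones Pool.Agent.H891R2.MT

variable {k : ℕ}

theorem loops_le (arcs : List (Corner k × Corner k)) (S : Finset (Fin k)) :
    loops arcs S ≤ 2 * k := by
  classical
  unfold loops
  have h : Function.Surjective (fun x : Fin k × Bool =>
      (Quot.mk (Sm arcs S) (if x.1 ∈ S then (x.1, false, x.2) else (x.1, x.2, true)) :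
        Quot (Sm arcs S))) := by
    intro q
    induction q using Quot.ind with
    | mk c =>
      obtain ⟨e, t, s⟩ := c
      by_cases he : e ∈ S
      · refine ⟨(e, s), ?_⟩
        simp only [he, if_true]
        cases t
        · rfl
        · exact Quot.sound (Or.inr (Or.inl ⟨he, rfl⟩))
      · refine ⟨(e, t), ?_⟩
        simp only [he, if_false]
        cases s
        · exact Quot.sound (Or.inr (Or.inr ⟨he, rfl⟩))
        · rfl
  have h1 := Nat.card_le_card_of_surjective _ h
  refine h1.trans (le_of_eq ?_)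
  rw [Nat.card_eq_fintype_card, Fintype.card_prod, Fintype.card_fin, Fintype.card_bool]
  ring

theorem cp_natDegree (arcs : List (Corner k × Corner k)) (S : Finset (Fin k)) :
    (cp arcs S).natDegree ≤ 3 * k := by
  unfold cp
  apply Polynomial.natDegree_sum_le_of_forall_le
  intro R hR
  have h1 : R.card ≤ k := by
    have := Finset.card_le_univ R
    rwa [Fintype.card_fin] at this
  have h2 := loops_le arcs R
  have h3 : ((-1 : Polynomial ℤ) ^ (S.card - R.card)) =
      Polynomial.C ((-1 : ℤ) ^ (S.card - R.card)) := by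
    rw [map_pow, map_neg, map_one]
  rw [h3]
  refine (Polynomial.natDegree_C_mul_X_pow_le _ _).trans ?_
  omega

theorem cp_empty (arcs : List (Corner k × Corner k)) : cp arcs ∅ ≠ 0 := by
  unfold cp
  rw [Finset.powerset_empty, Finset.sum_singleton, Finset.card_empty]
  simp

/-- if all `cp S`, `S ≠ ∅`, vanish, then the template is nugatory -/
theorem exists_cp_ne (arcs : List (Corner k × Corner k)) (h : ¬ Nugatory arcs) :
    ∃ S, S ≠ ∅ ∧ cp arcs S ≠ 0 := by
  classical
  by_contra hcon
  push Not at hcon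
  apply h
  have key : ∀ m : ℕ, ∀ S : Finset (Fin k), S.card = m →
      S.card + loops arcs S = loops arcs ∅ := by
    intro m
    induction m using Nat.strong_induction_on with
    | _ m ih =>
      intro S hS
      by_cases hS0 : S = ∅
      · rw [hS0]; simp
      · have h1 := hcon S (Finset.nonempty_iff_ne_empty.2 hS0)
        unfold cp at h1
        have h2 : ∑ R ∈ S.powerset, (-1 : Polynomial ℤ) ^ (S.card - R.card) *
            Polynomial.X ^ (R.card + loops arcs R) =
            Polynomial.X ^ (S.card + loops arcs S) + ∑ R ∈ S.powerset.erase S,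
              (-1 : Polynomial ℤ) ^ (S.card - R.card) * Polynomial.X ^ (loops arcs ∅) := by
          rw [← Finset.add_sum_erase _ _ (Finset.mem_powerset_self S), Nat.sub_self, pow_zero,
            one_mul]
          congr 1
          refine Finset.sum_congr rfl fun R hR => ?_
          rw [Finset.mem_erase, Finset.mem_powerset] at hR
          have hlt : R.card < m := by
            rw [← hS]
            exact Finset.card_lt_card (Finset.ssubset_iff_subset_ne.2 ⟨hR.2, hR.1⟩)
          rw [ih R.card hlt R rfl]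
        rw [h2, ← Finset.sum_mul] at h1
        have h3 : ∑ R ∈ S.powerset, (-1 : Polynomial ℤ) ^ (S.card - R.card) = 0 := by
          have h4 : ∑ R ∈ S.powerset, (-1 : ℤ) ^ (S.card - R.card) = 0 := by
            have h5 := Finset.sum_powerset_neg_one_pow_card (x := S)
            rw [if_neg hS0] at h5
            have h6 : ∑ R ∈ S.powerset, (-1 : ℤ) ^ (S.card - R.card) =
                (-1) ^ S.card * ∑ R ∈ S.powerset, (-1 : ℤ) ^ R.card := by
              rw [Finset.mul_sum]
              refine Finset.sum_congr rfl fun R hR => ?_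
              have hle := Finset.card_le_card (Finset.mem_powerset.1 hR)
              obtain ⟨j, hj⟩ := Nat.exists_eq_add_of_le hle
              rw [hj, Nat.add_sub_cancel_left, ← pow_add]
              have : R.card + j + R.card = 2 * R.card + j := by ring
              rw [this, pow_add, pow_mul]
              norm_num
            rw [h6, h5, mul_zero]
          have h7 := congrArg (fun z : ℤ => (z : Polynomial ℤ)) h4
          push_cast at h7
          exact h7
        have h8 : ∑ R ∈ S.powerset.erase S, (-1 : Polynomial ℤ) ^ (S.card - R.card) = -1 := by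
          rw [← Finset.add_sum_erase _ _ (Finset.mem_powerset_self S), Nat.sub_self,
            pow_zero] at h3
          linear_combination h3
        rw [h8] at h1
        have h9 : (Polynomial.X : Polynomial ℤ) ^ (S.card + loops arcs S) =
            Polynomial.X ^ (loops arcs ∅) := by linear_combination h1
        have h10 := congrArg Polynomial.natDegree h9
        rwa [Polynomial.natDegree_X_pow, Polynomial.natDegree_X_pow] at h10
  intro S
  rw [add_comm]
  exact key S.card S rfl

/-- support of a term -/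
theorem SIn_aeval {D : ℕ} (c : Polynomial ℤ) (hD : c.natDegree ≤ D) :
    T4b.SIn (Polynomial.aeval (-T 2 - T (-2) : ℤ[T;T⁻¹]) c) (-(2 * D : ℤ)) (2 * D) := by
  rw [Polynomial.aeval_eq_sum_range]
  refine T4b.SIn.sum _ _ fun i hi => ?_
  have h1 : i ≤ D := (Nat.lt_succ_iff.1 (Finset.mem_range.1 hi)).trans hD
  refine (T4b.SIn.smul _ (T4b.SIn_d.pow i)).mono ?_ ?_ <;> nlinarith

/-- the two clusters at the ends -/
theorem two_close (arcs : List (Corner k × Corner k)) (hτ : ¬ Nugatory arcs) (n : Fin k → ℤ)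
    (F : ℤ[T;T⁻¹]) (lo : ℤ) (w : ℕ) (hF : T4b.SIn F lo (lo + w))
    (h : ∑ S : Finset (Fin k), ((-1 : ℤ[T;T⁻¹]) ^ (nS n S).natAbs * T (4 * nS n S)) *
        Polynomial.aeval (-T 2 - T (-2) : ℤ[T;T⁻¹]) (cp arcs S) = F) :
    ∃ S₁ S₂ : Finset (Fin k), S₁ ≠ S₂ ∧ 4 * |nS n S₁ - nS n S₂| ≤ 12 * k + w := by
  classical
  by_contra hcon
  push Not at hcon
  set SS : Finset (Finset (Fin k)) := Finset.univ.filter (fun S => cp arcs S ≠ 0) with hSS
  have hne : SS.Nonempty := ⟨∅, Finset.mem_filter.2 ⟨Finset.mem_univ _, cp_empty arcs⟩⟩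
  obtain ⟨S1, hS1, hmax⟩ := SS.exists_max_image (fun S => nS n S) hne
  obtain ⟨S0, hS0, hmin⟩ := SS.exists_min_image (fun S => nS n S) hne
  have hS1' : cp arcs S1 ≠ 0 := (Finset.mem_filter.mp hS1).2
  have hS0' : cp arcs S0 ≠ 0 := (Finset.mem_filter.mp hS0).2
  set t : Finset (Fin k) → ℤ[T;T⁻¹] := fun S =>
    ((-1 : ℤ[T;T⁻¹]) ^ (nS n S).natAbs * T (4 * nS n S)) *
        Polynomial.aeval (-T 2 - T (-2) : ℤ[T;T⁻¹]) (cp arcs S) with ht
  have hsupp : ∀ S j, (t S).coeff j ≠ 0 → 4 * nS n S - 6 * k ≤ j ∧ j ≤ 4 * nS n S + 6 * k := by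
    intro S j hj
    have h1 := ((T4b.SIn_sgn (nS n S).natAbs).mul (T4b.SIn.T (4 * nS n S))).mul
      (SIn_aeval (cp arcs S) (cp_natDegree arcs S)) j hj
    push_cast at h1
    constructor <;> linarith [h1.1, h1.2]
  have hnz : ∀ S, cp arcs S ≠ 0 → ∃ j, (t S).coeff j ≠ 0 := by
    intro S hS
    by_contra hc
    push Not at hc
    have h1 : t S = 0 := LaurentPolynomial.ext hc
    have h2 : T4a.W (nS n S) * Polynomial.aeval (-T 2 - T (-2) : ℤ[T;T⁻¹]) (cp arcs S) = 0 := h1
    rcases mul_eq_zero.1 h2 with h3 | h3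
    · have h4 : T4a.W (nS n S) * T4a.W (-nS n S) = 1 := by
        rw [← T4a.W_add, add_neg_cancel, T4a.W_zero]
      rw [h3, zero_mul] at h4
      exact zero_ne_one h4
    · exact hS (aeval_inj _ h3)
  have hiso : ∀ S, cp arcs S ≠ 0 → ∃ j, 4 * nS n S - 6 * k ≤ j ∧ j ≤ 4 * nS n S + 6 * k ∧
      F.coeff j ≠ 0 := by
    intro S hS
    obtain ⟨j, hj⟩ := hnz S hS
    have h1 := hsupp S j hj
    refine ⟨j, h1.1, h1.2, ?_⟩
    have h2 : F.coeff j = (t S).coeff j := by
      rw [← h, AddMonoidAlgebra.coeff_sum, Finsupp.finsetSum_apply]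
      apply Finset.sum_eq_single
      · intro S' _ hne'
        by_contra h3
        have h4 := hsupp S' j h3
        have h5 := hcon S' S hne'
        have h6 : 4 * |nS n S' - nS n S| ≤ 12 * k := by
          rw [show (4 : ℤ) * |nS n S' - nS n S| = |4 * (nS n S' - nS n S)| by
            rw [abs_mul]; norm_num]
          rw [abs_le]
          constructor <;> linarith [h1.1, h1.2, h4.1, h4.2]
        have : (0 : ℤ) ≤ w := Int.natCast_nonneg w
        linarith
      · intro h3
        exact absurd (Finset.mem_univ _) h3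
    rw [h2]
    exact hj
  obtain ⟨S2, hS2, hcS2⟩ := exists_cp_ne arcs hτ
  have hcase : S1 ≠ S0 := by
    intro heq
    have a1 := hmax ∅ (Finset.mem_filter.2 ⟨Finset.mem_univ _, cp_empty arcs⟩)
    have a2 := hmin ∅ (Finset.mem_filter.2 ⟨Finset.mem_univ _, cp_empty arcs⟩)
    have a3 := hmax S2 (Finset.mem_filter.2 ⟨Finset.mem_univ _, hcS2⟩)
    have a4 := hmin S2 (Finset.mem_filter.2 ⟨Finset.mem_univ _, hcS2⟩)
    rw [heq] at a1 a3
    have a5 : nS n S2 = nS n ∅ := le_antisymm (by linarith) (by linarith)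
    have a6 := hcon S2 ∅ hS2
    rw [a5, sub_self, abs_zero, mul_zero] at a6
    have : (0 : ℤ) ≤ w := Int.natCast_nonneg w
    have : (0 : ℤ) ≤ k := Int.natCast_nonneg k
    linarith
  obtain ⟨j1, b1, b2, b3⟩ := hiso S1 hS1'
  obtain ⟨j0, c1, c2, c3⟩ := hiso S0 hS0'
  have d1 := hF j1 b3
  have d0 := hF j0 c3
  have e1 := hcon S1 S0 hcase
  have e2 : nS n S0 ≤ nS n S1 := hmax S0 hS0
  rw [abs_of_nonneg (by linarith)] at e1
  linarith [d1.2, d0.1]

end Pool.Agent.H832R3.TW
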