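import Pool.Agent.H832R3.TW.C

set_option autoImplicit false

/-! The final theorem: counting. -/

namespace Pool.Agent.H832R3.TW

open Finset LaurentPolynomial Pool.Agent.H891R2.Jones Pool.Agent.H891R2.MT

variable {k : ℕ}

theorem count_slab (h : Fin k → ℤ) (i : Fin k) (hi : h i ≠ 0) (L N : ℕ) :
    {n : Fin k → ℤ | (∀ e, |n e| ≤ N) ∧ |∑ e, h e * n e| ≤ L}.ncard ≤
      (2 * L + 1) * (2 * N + 1) ^ (k - 1) := by
  classical
  let t : Finset (ℤ × ({e : Fin k // e ≠ i} → ℤ)) :=
    (Finset.Icc (-(L : ℤ)) L) ×ˢ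
      Fintype.piFinset (fun _ : {e : Fin k // e ≠ i} => Finset.Icc (-(N : ℤ)) N)
  let F : (Fin k → ℤ) → ℤ × ({e : Fin k // e ≠ i} → ℤ) :=
    fun n => (∑ e, h e * n e, fun e => n e.1)
  have hc : Fintype.card {e : Fin k // e ≠ i} = k - 1 := by
    rw [Fintype.card_subtype]
    have : (univ.filter (fun e : Fin k => e ≠ i)) = univ.erase i := by
      ext e
      simp
    rw [this, Finset.card_erase_of_mem (by simp)]
    simp
  have hIcc : ∀ M : ℕ, (Finset.Icc (-(M : ℤ)) M).card = 2 * M + 1 := by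
    intro M
    rw [Int.card_Icc]
    omega
  have ht : (t : Finset _).card = (2 * L + 1) * (2 * N + 1) ^ (k - 1) := by
    rw [Finset.card_product, Fintype.card_piFinset, Finset.prod_const,
      Finset.card_univ, hc, hIcc, hIcc]
  rw [← ht, ← Set.ncard_coe_finset t]
  refine Set.ncard_le_ncard_of_injOn F ?_ ?_ t.finite_toSet
  · rintro n ⟨hn, hn1⟩
    rw [Finset.mem_coe]
    simp only [t, F, Finset.mem_product, Finset.mem_Icc, Fintype.mem_piFinset]
    exact ⟨abs_le.1 hn1, fun e => abs_le.1 (hn e.1)⟩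
  · intro n _ n' _ hnn
    simp only [F, Prod.mk.injEq] at hnn
    obtain ⟨ha, hc'⟩ := hnn
    have hd : ∀ e, e ≠ i → n e - n' e = 0 := by
      intro e he
      have := congrFun hc' ⟨e, he⟩
      simp only at this
      omega
    have h3 : ∑ e, h e * (n e - n' e) = 0 := by
      rw [← sub_eq_zero.2 ha, ← Finset.sum_sub_distrib]
      exact Finset.sum_congr rfl fun e _ => by ring
    rw [← Finset.add_sum_erase _ _ (Finset.mem_univ i),
      Finset.sum_eq_zero (by
        intro e he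
        rw [Finset.mem_erase] at he
        rw [hd e he.1, mul_zero]), add_zero] at h3
    have h4 : n i - n' i = 0 := (mul_eq_zero.1 h3).resolve_left hi
    funext e
    by_cases he : e = i
    · subst he; linarith
    · linarith [hd e he]

/-- if the bracket has small span, two partial sums are close to each other -/
theorem relation (arcs : List (Corner k × Corner k)) (hτ : ¬ Nugatory arcs) (s : ℕ)
    (n : Fin k → ℤ) (lo : ℤ)
    (h : ∀ j : ℤ, (twisted arcs n).std.bracket.coeff j ≠ 0 → lo ≤ j ∧ j ≤ lo + 4 * s) :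
    ∃ S₁ S₂ : Finset (Fin k), S₁ ≠ S₂ ∧ |nS n S₁ - nS n S₂| ≤ 4 * k + s + 1 := by
  have hk : 0 < k := by
    rcases Nat.eq_zero_or_pos k with h0 | h0
    · exfalso
      apply hτ
      subst h0
      intro S
      have : S = ∅ := by
        ext x
        exact x.elim0
      rw [this]
      simp
    · exact h0
  have hid := identity arcs hk n
  have hd : T4b.SIn ((-T 2 - T (-2) : ℤ[T;T⁻¹]) ^ (1 + k)) (-2 * (1 + k : ℕ)) (2 * (1 + k : ℕ)) := by
    refine (T4b.SIn_d.pow _).mono ?_ ?_ <;> linarith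
  have hb : T4b.SIn (twisted arcs n).std.bracket lo (lo + 4 * s) := h
  have hg := (((T4b.SIn_sgn (nS n univ).natAbs).mul (T4b.SIn.T (3 * nS n univ))).mul hd).mul hb
  obtain ⟨S₁, S₂, h1, h2⟩ := two_close arcs hτ n _ (0 + 3 * nS n univ + -2 * (1 + k : ℕ) + lo)
    (4 * (1 + k) + 4 * s) (hg.mono le_rfl (by push_cast; linarith)) hid
  refine ⟨S₁, S₂, h1, ?_⟩
  push_cast at h2
  linarith

theorem nS_sub' (n : Fin k → ℤ) (S S' : Finset (Fin k)) :
    nS n S - nS n S' = ∑ e, (chi S e - chi S' e) * n e := nS_sub n S S'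

/-- the count -/
theorem count (arcs : List (Corner k × Corner k)) (hτ : ¬ Nugatory arcs) (s N : ℕ) :
    {n : Fin k → ℤ | (∀ e, |n e| ≤ N) ∧ ∃ lo : ℤ, ∀ j : ℤ,
      (twisted arcs n).std.bracket.coeff j ≠ 0 → lo ≤ j ∧ j ≤ lo + 4 * s}.ncard ≤
      3 ^ k * (8 * k + 2 * s + 3) * (2 * N + 1) ^ (k - 1) := by
  classical
  set I : Finset (Fin k → ℤ) := Fintype.piFinset (fun _ => ({-1, 0, 1} : Finset ℤ)) with hI
  have hIc : I.card = 3 ^ k := by
    rw [hI, Fintype.card_piFinset]
    simp only [Finset.prod_const, Finset.card_univ, Fintype.card_fin]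
    rfl
  set J := I.filter (fun p => p ≠ 0) with hJ
  set B : (Fin k → ℤ) → Set (Fin k → ℤ) := fun p =>
    {n : Fin k → ℤ | (∀ e, |n e| ≤ N) ∧ |∑ e, p e * n e| ≤ (4 * k + s + 1 : ℕ)} with hB
  have hfin : ∀ p, (B p).Finite := by
    intro p
    refine (Set.Finite.pi' (fun _ : Fin k => Set.finite_Icc (-(N : ℤ)) N)).subset ?_
    intro n hn e
    exact abs_le.1 (hn.1 e)
  have hsub : {n : Fin k → ℤ | (∀ e, |n e| ≤ N) ∧ ∃ lo : ℤ, ∀ j : ℤ,
      (twisted arcs n).std.bracket.coeff j ≠ 0 → lo ≤ j ∧ j ≤ lo + 4 * s} ⊆ ⋃ p ∈ J, B p := by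
    rintro n ⟨hn, lo, hu⟩
    obtain ⟨S1, S2, h1, h2⟩ := relation arcs hτ s n lo hu
    rw [nS_sub'] at h2
    have hchi : ∀ (e : Fin k), chi S1 e - chi S2 e ∈ ({-1, 0, 1} : Finset ℤ) := by
      intro e
      unfold chi
      by_cases h4 : e ∈ S1 <;> by_cases h5 : e ∈ S2 <;> simp [h4, h5]
    refine Set.mem_iUnion₂.2 ⟨fun e => chi S1 e - chi S2 e, ?_, hn, ?_⟩
    · rw [hJ, Finset.mem_filter, hI, Fintype.mem_piFinset]
      refine ⟨hchi, ?_⟩
      intro h0
      apply h1
      ext e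
      have h3 := congrFun h0 e
      simp only [chi, Pi.zero_apply] at h3
      by_cases h4 : e ∈ S1 <;> by_cases h5 : e ∈ S2 <;> simp_all
    · push_cast
      exact h2
  calc _ ≤ (⋃ p ∈ J, B p).ncard := Set.ncard_le_ncard hsub
        (Set.Finite.biUnion (Finset.finite_toSet J) (fun p _ => hfin p))
    _ ≤ ∑ p ∈ J, (B p).ncard := Finset.set_ncard_biUnion_le _ _
    _ ≤ ∑ p ∈ J, (2 * (4 * k + s + 1) + 1) * (2 * N + 1) ^ (k - 1) := by
        refine Finset.sum_le_sum fun p hp => ?_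
        obtain ⟨i, hi⟩ : ∃ i, p i ≠ 0 := by
          by_contra hcon
          push Not at hcon
          exact (Finset.mem_filter.1 hp).2 (funext hcon)
        exact count_slab p i hi _ _
    _ = J.card * ((2 * (4 * k + s + 1) + 1) * (2 * N + 1) ^ (k - 1)) := by
        rw [Finset.sum_const, smul_eq_mul]
    _ ≤ 3 ^ k * ((2 * (4 * k + s + 1) + 1) * (2 * N + 1) ^ (k - 1)) := by
        refine Nat.mul_le_mul_right _ ?_
        rw [← hIc]
        exact Finset.card_filter_le _ _
    _ = _ := by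
        have : 2 * (4 * k + s + 1) + 1 = 8 * k + 2 * s + 3 := by ring
        rw [this, mul_assoc]

/-- for a nugatory template all brackets are those of an unlink, up to a unit -/
theorem bracket_nugatory (arcs : List (Corner k × Corner k)) (hτ : Nugatory arcs) (hk : 0 < k)
    (n : Fin k → ℤ) : ∃ ε m : ℤ, (ε = 1 ∨ ε = -1) ∧
      (twisted arcs n).std.bracket * (-T 2 - T (-2)) ^ (k + 1) =
        C ε * T m * (-T 2 - T (-2)) ^ (loops arcs ∅) := by
  classical
  have hid := identity arcs hk n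
  have hc : ∀ S : Finset (Fin k), S ≠ ∅ → cp arcs S = 0 := by
    intro S hS
    unfold cp
    have h1 : ∀ R ∈ S.powerset, (-1 : Polynomial ℤ) ^ (S.card - R.card) *
        Polynomial.X ^ (R.card + loops arcs R) =
        (-1 : Polynomial ℤ) ^ (S.card - R.card) * Polynomial.X ^ (loops arcs ∅) := by
      intro R _
      rw [← hτ R, add_comm]
    rw [Finset.sum_congr rfl h1, ← Finset.sum_mul]
    have h4 : ∑ R ∈ S.powerset, (-1 : ℤ) ^ (S.card - R.card) = 0 := by
      have h5 := Finset.sum_powerset_neg_one_pow_card (x := S)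
      rw [if_neg hS] at h5
      have h6 : ∑ R ∈ S.powerset, (-1 : ℤ) ^ (S.card - R.card) =
          (-1) ^ S.card * ∑ R ∈ S.powerset, (-1 : ℤ) ^ R.card := by
        rw [Finset.mul_sum]
        refine Finset.sum_congr rfl fun R hR => ?_
        have hle := Finset.card_le_card (Finset.mem_powerset.1 hR)
        obtain ⟨j, hj⟩ := Nat.exists_eq_add_of_le hle
        rw [hj, Nat.add_sub_cancel_left, ← pow_add]
        have : R.card + j + R.card = 2 * R.card + j := by ring
        rw [this, pow_add, pow_mul]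
        norm_num
      rw [h6, h5, mul_zero]
    have h7 := congrArg (fun z : ℤ => (z : Polynomial ℤ)) h4
    push_cast at h7
    rw [h7, zero_mul]
  rw [Finset.sum_eq_single ∅ (fun S _ hS => by rw [hc S hS, map_zero, mul_zero])
    (fun h => absurd (Finset.mem_univ _) h)] at hid
  have h0 : cp arcs ∅ = Polynomial.X ^ (loops arcs ∅) := by
    unfold cp
    rw [Finset.powerset_empty, Finset.sum_singleton, Finset.card_empty]
    simp
  have hn0 : nS n ∅ = 0 := by simp [nS]
  rw [h0, hn0, map_pow, Polynomial.aeval_X] at hid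
  simp only [Int.natAbs_zero, pow_zero, mul_zero, T_zero, one_mul] at hid
  set a := (nS n univ).natAbs with ha
  refine ⟨(-1) ^ a, -(3 * nS n univ), neg_one_pow_eq_or ℤ a, ?_⟩
  have h1 : ((-1 : ℤ[T;T⁻¹]) ^ a) * (-1) ^ a = 1 := by
    rw [← mul_pow]
    norm_num
  have h2 : (T (3 * nS n univ) * T (-(3 * nS n univ)) : ℤ[T;T⁻¹]) = 1 := by
    rw [← T_add, add_neg_cancel, T_zero]
  rw [hid, map_pow, map_neg, map_one]
  calc (twisted arcs n).std.bracket * (-T 2 - T (-2)) ^ (k + 1) =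
      (((-1 : ℤ[T;T⁻¹]) ^ a) * (-1) ^ a) * (T (3 * nS n univ) * T (-(3 * nS n univ))) *
        ((twisted arcs n).std.bracket * (-T 2 - T (-2)) ^ (k + 1)) := by rw [h1, h2]; ring
    _ = _ := by
      have : 1 + k = k + 1 := by ring
      rw [this]
      ring

end Pool.Agent.H832R3.TW
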