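import Pool.Agent.H891R2.MT.Defs

set_option autoImplicit false

/-!
# Diagrams with several twist regions, on arbitrary surfaces

A template with `k` boxes: every box has four corners, `arcs` is a list of pairs of corners which
are joined outside of the boxes (the template need not be planar: the arcs may cross each other
virtually, or lie on a surface).  `twisted arcs n` is the unoriented diagram in which the box
number `e` contains a row of `|n e|` crossings (two strands with `n e` half twists).  Link diagrams
on surfaces (virtual link diagrams): every corner belongs to exactly one arc; diagrams of
knotoids: two corners (the end points of the interval) belong to no arc.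
-/

namespace Pool.Agent.H832R3.TW

open Finset LaurentPolynomial Pool.Agent.H891R2.Jones Pool.Agent.H891R2.MT

variable {k : ℕ}

/-- the corners `(e, t, s)` of the boxes: box number `e`, lower end (`t = false`) or upper end
(`t = true`), left (`s = true`) or right (`s = false`) side -/
abbrev Corner (k : ℕ) : Type := Fin k × Bool × Bool

/-- the marked point at a corner of a box (`Ribbon.Pt n`: the box `e` has `|n e| + 1` levels
with two marked points on each level) -/
def corner (n : Fin k → ℤ) (x : Corner k) : Ribbon.Pt n :=
  ⟨x.1, if x.2.1 then Fin.last _ else 0, x.2.2⟩

/-- the diagram with `|n e|` crossings in the box `e`, of the kind given by the sign of `n e` -/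
def twisted (arcs : List (Corner k × Corner k)) (n : Fin k → ℤ) : UDiagram (Ribbon.Pt n) where
  arcs := arcs.map (Prod.map (corner n) (corner n))
  crossings := (List.finRange k).flatMap
    (fun e => (List.finRange (n e).natAbs).map (Ribbon.twistCrossing n e))

/-- Two corners are joined in the state `S`: by an arc; by a strand through the box `e ∈ S` from
its lower to its upper end; or, for `e ∉ S`, by a strand from the left to the right at one end of
the box. -/
def Sm (arcs : List (Corner k × Corner k)) (S : Finset (Fin k)) (x y : Corner k) : Prop :=
  (x, y) ∈ arcs ∨ (x.1 ∈ S ∧ y = (x.1, !x.2.1, x.2.2)) ∨ (x.1 ∉ S ∧ y = (x.1, x.2.1, !x.2.2))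

/-- the number of components (closed curves, and intervals if not all corners belong to arcs) of
the state `S` -/
noncomputable def loops (arcs : List (Corner k × Corner k)) (S : Finset (Fin k)) : ℕ :=
  Nat.card (Quot (Sm arcs S))

/-- All boxes are nugatory: opening the boxes `S` vertically decreases the number of components
by `|S|`.  (Then the components of the state `∅` and the boxes form a forest, and all crossings can
be removed by Reidemeister moves of the first kind.) -/
def Nugatory (arcs : List (Corner k × Corner k)) : Prop :=
  ∀ S : Finset (Fin k), loops arcs S + S.card = loops arcs ∅

/-! ### auxiliary notions -/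

/-- the polynomial of the state `S` -/
noncomputable def cp (arcs : List (Corner k × Corner k)) (S : Finset (Fin k)) : Polynomial ℤ :=
  ∑ R ∈ S.powerset, (-1) ^ (S.card - R.card) * Polynomial.X ^ (R.card + loops arcs R)

end Pool.Agent.H832R3.TW
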