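import Pool.Agent.H832R3.TW.D

set_option autoImplicit false

/-! Oriented diagrams of links and knotoids. -/

namespace Pool.Agent.H832R3.TW

open Finset LaurentPolynomial Pool.Agent.H891R2.Jones Pool.Agent.H891R2.MT

variable {k : ℕ}

/-- the oriented diagram `D` is a diagram of a multi-knotoid: it is made of oriented closed curves
and one interval running from `tail` to `head` -/
def IsKnotoid {P : Type} [DecidableEq P] (D : Diagram P) : Prop :=
  ∃ tail head : P, tail ≠ head ∧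
    ∀ p, D.starts.count p = (if p = head then 0 else 1) ∧
      D.ends.count p = (if p = tail then 0 else 1)

/-- the normalised bracket of `D` is supported in an interval of length at most `4 s` -/
def FSpanLE {P : Type} (s : ℕ) (D : Diagram P) : Prop :=
  ∃ lo : ℤ, ∀ j : ℤ, D.fPoly.coeff j ≠ 0 → lo ≤ j ∧ j ≤ lo + 4 * s

theorem bracket_eq {P : Type} (D : Diagram P) :
    D.bracket = C (if Even D.writhe then (1:ℤ) else -1) * T (3 * D.writhe) * D.fPoly := by
  have h1 : (T (3 * D.writhe) : ℤ[T;T⁻¹]) * T (-3 * D.writhe) = 1 := by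
    rw [← T_add]
    have : 3 * D.writhe + -3 * D.writhe = 0 := by ring
    rw [this, T_zero]
  unfold Diagram.fPoly
  by_cases hw : Even D.writhe
  · simp only [hw, if_true, one_mul, map_one]
    rw [← mul_assoc, h1, one_mul]
  · simp only [hw, if_false, map_neg, map_one]
    linear_combination (-D.bracket) * h1

theorem span_bracket {P : Type} [Fintype P] [DecidableEq P] [Nonempty P] (s : ℕ)
    (U : UDiagram P) (D : Diagram P) (hD : Orients D U) (h : FSpanLE s D) :
    ∃ lo : ℤ, ∀ j : ℤ, U.std.bracket.coeff j ≠ 0 → lo ≤ j ∧ j ≤ lo + 4 * s := by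
  obtain ⟨lo, hf⟩ := h
  rw [← T6.bracket_orients D U hD]
  refine ⟨3 * D.writhe + lo, ?_⟩
  rw [bracket_eq]
  have h3 : T4b.SIn D.fPoly lo (lo + 4 * s) := hf
  exact (((T4b.SIn.C _).mul (T4b.SIn.T _)).mul h3).mono (by linarith) (by linarith)

theorem pos_of_not_nugatory (arcs : List (Corner k × Corner k)) (hτ : ¬ Nugatory arcs) :
    0 < k := by
  rcases Nat.eq_zero_or_pos k with h0 | h0
  · exfalso
    apply hτ
    subst h0
    intro S
    have : S = ∅ := by
      ext x
      exact x.elim0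
    rw [this]
    simp
  · exact h0

theorem relation' (arcs : List (Corner k × Corner k)) (hτ : ¬ Nugatory arcs) (s : ℕ)
    (n : Fin k → ℤ) (D : Diagram (Ribbon.Pt n)) (hD : Orients D (twisted arcs n))
    (h : FSpanLE s D) :
    ∃ S₁ S₂ : Finset (Fin k), S₁ ≠ S₂ ∧ |∑ e ∈ S₁, n e - ∑ e ∈ S₂, n e| ≤ 4 * k + s + 1 := by
  have hk := pos_of_not_nugatory arcs hτ
  have hne : Nonempty (Ribbon.Pt n) := ⟨⟨⟨0, hk⟩, 0, true⟩⟩
  obtain ⟨lo, h1⟩ := span_bracket s _ D hD h
  exact relation arcs hτ s n lo h1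

theorem count' (arcs : List (Corner k × Corner k)) (hτ : ¬ Nugatory arcs) (s N : ℕ)
    (X : ∀ n : Fin k → ℤ, Diagram (Ribbon.Pt n) → Prop) :
    {n : Fin k → ℤ | (∀ e, |n e| ≤ N) ∧ ∃ D : Diagram (Ribbon.Pt n),
      Orients D (twisted arcs n) ∧ X n D ∧ FSpanLE s D}.ncard ≤
      3 ^ k * (8 * k + 2 * s + 3) * (2 * N + 1) ^ (k - 1) := by
  have hk := pos_of_not_nugatory arcs hτ
  refine le_trans (Set.ncard_le_ncard ?_ ?_) (count arcs hτ s N)
  · rintro n ⟨hn, D, hD, _, h⟩
    have hne : Nonempty (Ribbon.Pt n) := ⟨⟨⟨0, hk⟩, 0, true⟩⟩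
    exact ⟨hn, span_bracket s _ D hD h⟩
  · refine (Set.Finite.pi' (fun _ : Fin k => Set.finite_Icc (-(N : ℤ)) N)).subset ?_
    intro n hn e
    exact abs_le.1 (hn.1 e)

theorem nugatory' (arcs : List (Corner k × Corner k)) (hτ : Nugatory arcs) (hk : 0 < k)
    (n : Fin k → ℤ) (D : Diagram (Ribbon.Pt n)) (hD : Orients D (twisted arcs n)) :
    ∃ ε m : ℤ, (ε = 1 ∨ ε = -1) ∧
      (-T 2 - T (-2)) ^ (k + 1) * D.fPoly = C ε * T m * (-T 2 - T (-2)) ^ (loops arcs ∅) := by
  have hne : Nonempty (Ribbon.Pt n) := ⟨⟨⟨0, hk⟩, 0, true⟩⟩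
  obtain ⟨ε, m, hε, h⟩ := bracket_nugatory arcs hτ hk n
  rw [← T6.bracket_orients D _ hD] at h
  have h1 : D.fPoly = C (if Even D.writhe then (1:ℤ) else -1) * T (-3 * D.writhe) * D.bracket := by
    unfold Diagram.fPoly
    by_cases hw : Even D.writhe
    · simp only [hw, if_true, map_one]
    · simp only [hw, if_false, map_neg, map_one]
  refine ⟨(if Even D.writhe then (1:ℤ) else -1) * ε, -3 * D.writhe + m, ?_, ?_⟩
  · rcases hε with rfl | rfl <;> split_ifs <;> norm_num
  · rw [h1, map_mul, T_add]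
    linear_combination (C (if Even D.writhe then (1:ℤ) else -1) * T (-3 * D.writhe)) * h

end Pool.Agent.H832R3.TW
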